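import Pool.Agent.Lib.MP_1c1c61_pr.Final

open Filter Topology

namespace Pool.Agent.Results.MP_1c1c61_pr.CutoffWindow

/-- Generator of the `q`-state noisy voter model on the graph `G`.
Every vertex `v` rings at rate one.  With probability `θ` its colour is replaced by a uniform
colour, with probability `1 - θ` by the colour of a uniformly chosen neighbour. -/
noncomputable def generator {V : Type} [Fintype V] [DecidableEq V] (G : SimpleGraph V)
    [DecidableRel G.Adj] (q : ℕ) (θ : ℝ) : Matrix (V → Fin q) (V → Fin q) ℝ :=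
  fun x y => ∑ v : V,
    (θ * ((q : ℝ)⁻¹ * ∑ c : Fin q, if Function.update x v c = y then 1 else 0)
      + (1 - θ) * ((G.degree v : ℝ)⁻¹ *
          ∑ w ∈ G.neighborFinset v, if Function.update x v (x w) = y then 1 else 0)
      - if x = y then 1 else 0)

/-- Transition probabilities: row `x` of `transition G q θ t` is the law at time `t` of the chain
started from `x`. -/
noncomputable def transition {V : Type} [Fintype V] [DecidableEq V] (G : SimpleGraph V)
    [DecidableRel G.Adj] (q : ℕ) (θ : ℝ) (t : ℝ) : Matrix (V → Fin q) (V → Fin q) ℝ :=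
  NormedSpace.exp (t • generator G q θ)

/-- A probability vector which is invariant for the noisy voter model. -/
def IsStationary {V : Type} [Fintype V] [DecidableEq V] (G : SimpleGraph V)
    [DecidableRel G.Adj] (q : ℕ) (θ : ℝ) (μ : (V → Fin q) → ℝ) : Prop :=
  (∀ x, 0 ≤ μ x) ∧ ∑ x, μ x = 1 ∧
    ∀ t : ℝ, 0 ≤ t → ∀ y, ∑ x, μ x * transition G q θ t x y = μ y

/-- Total variation distance. -/
noncomputable def tvDist {S : Type} [Fintype S] (ν μ : S → ℝ) : ℝ :=
  (1 / 2) * ∑ x, |ν x - μ x|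

/-- Mixing time from the deterministic state `x₀`. -/
noncomputable def mixingTime {V : Type} [Fintype V] [DecidableEq V] (G : SimpleGraph V)
    [DecidableRel G.Adj] (q : ℕ) (θ : ℝ) (μ : (V → Fin q) → ℝ) (x₀ : V → Fin q) (ε : ℝ) : ℝ :=
  sInf {t : ℝ | 0 ≤ t ∧ tvDist (transition G q θ t x₀) μ ≤ ε}

open Pool.Agent.Lib.MP_1c1c61_pr

section bridge

variable {V : Type} [Fintype V] [DecidableEq V]

/-- the copy kernel of a graph whose degrees lie between `m` and `Δ m` -/
noncomputable def graphKern (G : SimpleGraph V) [DecidableRel G.Adj] {θ : ℝ} (hθ : θ ≤ 1) {Δ m : ℝ}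
    (hm : 0 < m) (h1 : ∀ v, m ≤ G.degree v) (h2 : ∀ v, G.degree v ≤ Δ * m) : Kern V θ Δ where
  κ v w := if G.Adj v w then (1 - θ) * (G.degree v : ℝ)⁻¹ else 0
  d v := G.degree v / m
  nonneg v w := by
    split_ifs
    · have : 0 ≤ 1 - θ := by linarith
      positivity
    · exact le_rfl
  row v := by
    have hv : (G.degree v : ℝ) ≠ 0 := (hm.trans_le (h1 v)).ne'
    rw [← Finset.sum_filter, Finset.sum_const, nsmul_eq_mul]
    have : (Finset.univ.filter fun w => G.Adj v w) = G.neighborFinset v := by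
      ext w; simp
    rw [this, G.card_neighborFinset_eq_degree]
    field_simp
  one_le v := by rw [le_div_iff₀ hm, one_mul]; exact h1 v
  le_del v := by rw [div_le_iff₀ hm]; exact h2 v
  inv w := by
    have h3 : ∀ v, (G.degree v / m : ℝ) * (if G.Adj v w then (1 - θ) * (G.degree v : ℝ)⁻¹ else 0) =
        if G.Adj w v then (1 - θ) / m else 0 := by
      intro v
      have hv : (G.degree v : ℝ) ≠ 0 := (hm.trans_le (h1 v)).ne'
      by_cases h : G.Adj v w
      · rw [if_pos h, if_pos h.symm]; field_simp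
      · rw [if_neg h, if_neg (fun h' => h h'.symm)]; simp
    simp_rw [h3]
    rw [← Finset.sum_filter, Finset.sum_const, nsmul_eq_mul]
    have : (Finset.univ.filter fun v => G.Adj w v) = G.neighborFinset w := by
      ext v; simp
    rw [this, G.card_neighborFinset_eq_degree]
    refine le_of_eq ?_
    ring

/-- matrices as operators -/
noncomputable def Phi (Ω : Type) [Fintype Ω] [DecidableEq Ω] : Matrix Ω Ω ℝ →ₐ[ℝ] Op Ω :=
  ((Module.End.toContinuousLinearMap (𝕜 := ℝ) (Ω → ℝ)).toAlgHom).comp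
    (Matrix.toLinAlgEquiv' : Matrix Ω Ω ℝ ≃ₐ[ℝ] ((Ω → ℝ) →ₗ[ℝ] (Ω → ℝ))).toAlgHom

lemma Phi_apply {Ω : Type} [Fintype Ω] [DecidableEq Ω] (A : Matrix Ω Ω ℝ) (f : Ω → ℝ) :
    Phi Ω A f = A.mulVec f := rfl

set_option backward.isDefEq.respectTransparency false in
open scoped Matrix.Norms.Operator in
lemma Phi_exp {Ω : Type} [Fintype Ω] [DecidableEq Ω] (A : Matrix Ω Ω ℝ) :
    Phi Ω (NormedSpace.exp A) = NormedSpace.exp (Phi Ω A) := by
  refine NormedSpace.map_exp (Phi Ω) ?_ A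
  exact LinearMap.continuous_of_finiteDimensional (Phi Ω).toLinearMap

lemma Phi_generator {q : ℕ} [NeZero q] (G : SimpleGraph V) [DecidableRel G.Adj] {θ : ℝ}
    (hθ : θ ≤ 1) {Δ m : ℝ} (hm : 0 < m)
    (h1 : ∀ v, m ≤ G.degree v) (h2 : ∀ v, G.degree v ≤ Δ * m) :
    Phi (V → Fin q) (generator G q θ) = Lg (graphKern G hθ hm h1 h2) := by
  refine ContinuousLinearMap.ext fun f => ?_
  ext x
  rw [Phi_apply, Lg_apply]
  have hif : ∀ z : V → Fin q, ∑ y, (if z = y then (1 : ℝ) else 0) * f y = f z := by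
    intro z
    simp
  have hrow : ∀ v : V, ∑ y, ((θ * ((q : ℝ)⁻¹ * ∑ c : Fin q,
        if Function.update x v c = y then 1 else 0)
      + (1 - θ) * ((G.degree v : ℝ)⁻¹ *
          ∑ w ∈ G.neighborFinset v, if Function.update x v (x w) = y then 1 else 0)
      - if x = y then 1 else 0) * f y) =
      θ * E v f x + ∑ w, (graphKern G hθ hm h1 h2).κ v w * f (Function.update x v (x w)) - f x := by
    intro v
    have e1 : ∀ y, ((θ * ((q : ℝ)⁻¹ * ∑ c : Fin q,
        if Function.update x v c = y then 1 else 0)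
      + (1 - θ) * ((G.degree v : ℝ)⁻¹ *
          ∑ w ∈ G.neighborFinset v, if Function.update x v (x w) = y then 1 else 0)
      - if x = y then 1 else 0) * f y) =
        θ * (q : ℝ)⁻¹ * (∑ c : Fin q, (if Function.update x v c = y then 1 else 0) * f y)
        + (1 - θ) * (G.degree v : ℝ)⁻¹ * (∑ w ∈ G.neighborFinset v,
            (if Function.update x v (x w) = y then 1 else 0) * f y)
        - (if x = y then 1 else 0) * f y := by
      intro y
      rw [← Finset.sum_mul, ← Finset.sum_mul]; ring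
    simp_rw [e1]
    rw [Finset.sum_sub_distrib, Finset.sum_add_distrib, ← Finset.mul_sum, ← Finset.mul_sum, hif,
      Finset.sum_comm, Finset.sum_comm (t := G.neighborFinset v)]
    simp_rw [hif]
    congr 1
    congr 1
    · rw [E_apply]; ring
    · simp only [graphKern, ite_mul, zero_mul]
      rw [← Finset.sum_filter]
      have : (Finset.univ.filter fun w => G.Adj v w) = G.neighborFinset v := by
        ext w; simp
      rw [this, Finset.mul_sum]
  have hmul : (generator G q θ).mulVec f x = ∑ v : V, ∑ y, ((θ * ((q : ℝ)⁻¹ * ∑ c : Fin q,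
        if Function.update x v c = y then 1 else 0)
      + (1 - θ) * ((G.degree v : ℝ)⁻¹ *
          ∑ w ∈ G.neighborFinset v, if Function.update x v (x w) = y then 1 else 0)
      - if x = y then 1 else 0) * f y) := by
    rw [Finset.sum_comm]
    simp only [Matrix.mulVec, dotProduct, generator]
    exact Finset.sum_congr rfl fun y _ => by rw [Finset.sum_mul]
  rw [hmul]
  simp_rw [hrow]
  rw [Finset.sum_sub_distrib, Finset.sum_add_distrib, Finset.sum_const, Finset.card_univ,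
    nsmul_eq_mul, Finset.mul_sum]

lemma transition_eq {q : ℕ} [NeZero q] (G : SimpleGraph V) [DecidableRel G.Adj] {θ : ℝ}
    (hθ : θ ≤ 1) {Δ m : ℝ} (hm : 0 < m)
    (h1 : ∀ v, m ≤ G.degree v) (h2 : ∀ v, G.degree v ≤ Δ * m) (t : ℝ)
    (x y : V → Fin q) :
    transition G q θ t x y = pt (graphKern G hθ hm h1 h2) t x y := by
  unfold pt transition
  rw [← Phi_generator G hθ hm h1 h2, ← map_smul, ← Phi_exp, Phi_apply, Matrix.mulVec_single_one]
  rfl

lemma transition_eq' {q : ℕ} [NeZero q] (G : SimpleGraph V) [DecidableRel G.Adj] {θ : ℝ}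
    (hθ : θ ≤ 1) {Δ m : ℝ} (hm : 0 < m)
    (h1 : ∀ v, m ≤ G.degree v) (h2 : ∀ v, G.degree v ≤ Δ * m) (t : ℝ)
    (x : V → Fin q) :
    transition G q θ t x = pt (graphKern G hθ hm h1 h2) t x := by
  ext y; exact transition_eq G hθ hm h1 h2 t x y

lemma isStat_of {q : ℕ} [NeZero q] (G : SimpleGraph V) [DecidableRel G.Adj] {θ : ℝ}
    (hθ : θ ≤ 1) {Δ m : ℝ} (hm : 0 < m)
    (h1 : ∀ v, m ≤ G.degree v) (h2 : ∀ v, G.degree v ≤ Δ * m)
    {μ : (V → Fin q) → ℝ} (hμ : IsStationary G q θ μ) : IsStat (graphKern G hθ hm h1 h2) μ := by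
  obtain ⟨m1, m2, m3⟩ := hμ
  refine ⟨m1, m2, fun t ht f => ?_⟩
  calc ∑ x, μ x * NormedSpace.exp (t • Lg (graphKern G hθ hm h1 h2)) f x
      = ∑ x, ∑ y, μ x * (pt (graphKern G hθ hm h1 h2) t x y * f y) := by
        refine Finset.sum_congr rfl fun x _ => ?_
        rw [← sum_pt, Finset.mul_sum]
    _ = ∑ y, (∑ x, μ x * transition G q θ t x y) * f y := by
        rw [Finset.sum_comm]
        refine Finset.sum_congr rfl fun y _ => ?_
        rw [Finset.sum_mul]
        refine Finset.sum_congr rfl fun x _ => ?_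
        rw [transition_eq G hθ hm h1 h2]; ring
    _ = ∑ y, μ y * f y := Finset.sum_congr rfl fun y _ => by rw [m3 t ht y]

lemma mixingTime_eq {q : ℕ} [NeZero q] (G : SimpleGraph V) [DecidableRel G.Adj] {θ : ℝ}
    (hθ : θ ≤ 1) {Δ m : ℝ} (hm : 0 < m)
    (h1 : ∀ v, m ≤ G.degree v) (h2 : ∀ v, G.degree v ≤ Δ * m)
    (μ : (V → Fin q) → ℝ) (x₀ : V → Fin q) (ε : ℝ) :
    mixingTime G q θ μ x₀ ε = tm (graphKern G hθ hm h1 h2) μ x₀ ε := by
  unfold mixingTime tm
  simp_rw [transition_eq' G hθ hm h1 h2]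
  rfl

lemma one_le_degree (G : SimpleGraph V) [DecidableRel G.Adj] (hG : G.Connected)
    (hV : 2 ≤ Fintype.card V) (v : V) : 1 ≤ G.degree v := by
  have : Nontrivial V := Fintype.one_lt_card_iff_nontrivial.mp hV
  exact hG.preconnected.minDegree_pos_of_nontrivial.trans_le (G.minDegree_le_degree v)

lemma one_le_ratio {Δ : ℝ} (G : SimpleGraph V) [DecidableRel G.Adj] (hG : G.Connected)
    (hV : 2 ≤ Fintype.card V) (hdeg : ∀ v w, (G.degree v : ℝ) ≤ Δ * G.degree w) : 1 ≤ Δ := by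
  obtain ⟨v⟩ := hG.nonempty
  have h1 : (1 : ℝ) ≤ G.degree v := by exact_mod_cast one_le_degree G hG hV v
  have h2 := hdeg v v
  by_contra h
  push Not at h
  nlinarith

/-- the variance constant grows at most like `log n` -/
lemma Cv_le {q : ℕ} {θ Δ n : ℝ} (hθ0 : 0 < θ) (hθ1 : θ ≤ 1) (hΔ : 1 ≤ Δ) (hn : 3 ≤ n) :
    Cv q θ Δ n / θ ≤ 2 * (q + 2) * (Δ * (Real.exp ((1 - θ) * (1 + Δ)) *
      (2 / θ + (1 - θ) * (1 + Δ) * (2 / θ * 2)))) * Real.exp θ / θ * Real.log n := by
  have hlog : 1 ≤ Real.log n := by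
    rw [Real.le_log_iff_exp_le (by linarith)]
    exact (Real.exp_one_lt_d9.le.trans (by norm_num)).trans hn
  have hlog2 : Real.log (1 + n) ≤ 2 * Real.log n := by
    rw [← Real.log_rpow (by linarith), Real.rpow_two]
    exact Real.log_le_log (by linarith) (by nlinarith)
  have h1 : 0 ≤ 1 - θ := by linarith
  have h2 : 0 ≤ (1 - θ) * (1 + Δ) := by nlinarith
  have h3 : 2 / θ + (1 - θ) * (1 + Δ) * (2 / θ * Real.log (1 + n)) ≤
      (2 / θ + (1 - θ) * (1 + Δ) * (2 / θ * 2)) * Real.log n := by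
    have h4 : 2 / θ ≤ 2 / θ * Real.log n := by
      have : 0 < 2 / θ := by positivity
      nlinarith
    have h5 : (1 - θ) * (1 + Δ) * (2 / θ * Real.log (1 + n)) ≤
        (1 - θ) * (1 + Δ) * (2 / θ * (2 * Real.log n)) := by
      gcongr
    calc _ ≤ 2 / θ * Real.log n + (1 - θ) * (1 + Δ) * (2 / θ * (2 * Real.log n)) := add_le_add h4 h5
      _ = _ := by ring
  unfold Cv Xs
  calc 2 * ((q : ℝ) + 2) * (Δ * (Real.exp ((1 - θ) * (1 + Δ)) *
        (2 / θ + (1 - θ) * (1 + Δ) * (2 / θ * Real.log (1 + n))))) * Real.exp θ / θ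
      ≤ 2 * ((q : ℝ) + 2) * (Δ * (Real.exp ((1 - θ) * (1 + Δ)) *
        ((2 / θ + (1 - θ) * (1 + Δ) * (2 / θ * 2)) * Real.log n))) * Real.exp θ / θ := by
        gcongr
    _ = _ := by ring

/-- the constant of the window -/
noncomputable def Kc (q : ℕ) (θ Δ : ℝ) : ℝ := 2 * (q + 2) * (Δ * (Real.exp ((1 - θ) * (1 + Δ)) *
      (2 / θ + (1 - θ) * (1 + Δ) * (2 / θ * 2)))) * Real.exp θ / θ

/-- one sided window bound -/
lemma window_step {q : ℕ} [NeZero q] [Nonempty V] {θ Δ : ℝ} (K : Kern V θ Δ) (hθ0 : 0 < θ)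
    (hθ1 : θ ≤ 1) (hΔ : 1 ≤ Δ) {μ : (V → Fin q) → ℝ} (hμ : IsStat K μ) (x0 : V → Fin q)
    {ε ε' m : ℝ} (hε : 0 < ε) (hε1 : ε < 1) (hε' : 0 < ε') (hm : 0 < m)
    (hm2 : m ≤ (ε' * (1 - ε)) ^ 2) (hV : 3 ≤ Fintype.card V) :
    tm K μ x0 ε' ≤ tm K μ x0 ε + 1 / θ * Real.log (Real.log (Fintype.card V)) +
      (2 + |1 / θ * Real.log (Kc q θ Δ / m)|) := by
  set n : ℝ := (Fintype.card V : ℝ) with hn
  have hn3 : (3 : ℝ) ≤ n := by rw [hn]; exact_mod_cast hV
  have hlog : 1 ≤ Real.log n := by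
    rw [Real.le_log_iff_exp_le (by linarith)]
    exact (Real.exp_one_lt_d9.le.trans (by norm_num)).trans hn3
  have hll : 0 ≤ Real.log (Real.log n) := Real.log_nonneg hlog
  have hK : 0 < Kc q θ Δ := by
    have h1 : 0 ≤ 1 - θ := by linarith
    unfold Kc
    positivity
  set s : ℝ := 1 / θ * Real.log (Real.log n) + (1 + |1 / θ * Real.log (Kc q θ Δ / m)|) with hs
  have hs1 : 1 ≤ s := by
    have h1 : 0 ≤ 1 / θ * Real.log (Real.log n) := by positivity
    have h2 := abs_nonneg (1 / θ * Real.log (Kc q θ Δ / m))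
    linarith
  have hη : Cv q θ Δ n / θ * Real.exp (-(θ * s)) ≤ (ε' * (1 - ε)) ^ 2 := by
    have h1 : Cv q θ Δ n / θ ≤ Kc q θ Δ * Real.log n := Cv_le hθ0 hθ1 hΔ hn3
    have h2 : Real.exp (-(θ * s)) ≤ m / (Kc q θ Δ * Real.log n) := by
      rw [← Real.le_log_iff_exp_le (by positivity), Real.log_div hm.ne' (by positivity),
        Real.log_mul hK.ne' (by positivity)]
      have h3 : θ * s = Real.log (Real.log n) + θ * (1 + |1 / θ * Real.log (Kc q θ Δ / m)|) := by
        rw [hs]; field_simp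
      have h4 : Real.log (Kc q θ Δ / m) ≤ θ * |1 / θ * Real.log (Kc q θ Δ / m)| := by
        calc Real.log (Kc q θ Δ / m) = θ * (1 / θ * Real.log (Kc q θ Δ / m)) := by field_simp
          _ ≤ _ := by gcongr; exact le_abs_self _
      rw [Real.log_div hK.ne' hm.ne'] at h4
      rw [h3, mul_add]
      rw [Real.log_div hK.ne' hm.ne']
      linarith
    calc Cv q θ Δ n / θ * Real.exp (-(θ * s)) ≤ (Kc q θ Δ * Real.log n) *
          (m / (Kc q θ Δ * Real.log n)) := by
          refine mul_le_mul h1 h2 (Real.exp_pos _).le (by positivity)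
      _ = m := by field_simp
      _ ≤ _ := hm2
  have := tm_boost K hθ0 hθ1 hΔ hμ x0 hs1 hε hε1 hε' hη
  linarith

end bridge

/-- The chain has a stationary law (the hypothesis of the theorem below is satisfiable). -/
theorem exists_isStationary {V : Type} [Fintype V] [DecidableEq V] (G : SimpleGraph V)
    [DecidableRel G.Adj] (hG : G.Connected) (hV : 2 ≤ Fintype.card V) (q : ℕ) (hq : 1 ≤ q)
    (θ : ℝ) (hθ0 : 0 < θ) (hθ1 : θ < 1) : ∃ μ, IsStationary G q θ μ := by
  have : NeZero q := ⟨by omega⟩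
  have := hG.nonempty
  have h1 : ∀ v, (1 : ℝ) ≤ G.degree v := fun v => by exact_mod_cast one_le_degree G hG hV v
  have h2 : ∀ v, (G.degree v : ℝ) ≤ (Fintype.card V : ℝ) * 1 := fun v => by
    rw [mul_one]; exact_mod_cast (G.degree_lt_card_verts v).le
  obtain ⟨μ, hμ⟩ := exists_stat (q := q) (graphKern G hθ1.le one_pos h1 h2) hθ0 hθ1.le
  refine ⟨μ, hμ.nonneg, hμ.sum_one, fun t ht y => ?_⟩
  have h3 := hμ.inv t ht (Pi.single y 1)
  calc ∑ x, μ x * transition G q θ t x y
      = ∑ x, μ x * NormedSpace.exp (t • Lg (graphKern G hθ1.le one_pos h1 h2)) (Pi.single y 1) x := by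
        refine Finset.sum_congr rfl fun x _ => ?_
        rw [transition_eq G hθ1.le one_pos h1 h2]; rfl
    _ = ∑ x, μ x * (Pi.single y 1 : (V → Fin q) → ℝ) x := h3
    _ = μ y := by simp [Pi.single_apply]

/-- Cutoff, with a window of order `log log n`, for the `q`-state noisy voter model on every
sequence of connected graphs with bounded ratio of maximal to minimal degree, from every sequence
of deterministic initial states.  The constant `C` of the window depends only on `q`, `θ`, `Δ` and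
`ε`, not on the graphs and the states. -/
theorem result (q : ℕ) (hq : 2 ≤ q) (θ : ℝ) (hθ0 : 0 < θ) (hθ1 : θ < 1) (Δ : ℝ) :
    ∃ C : ℝ → ℝ, ∀ (V : ℕ → Type) [∀ n, Fintype (V n)] [∀ n, DecidableEq (V n)]
      (_ : ∀ n, 2 ≤ Fintype.card (V n))
      (_ : Tendsto (fun n => Fintype.card (V n)) atTop atTop)
      (G : ∀ n, SimpleGraph (V n)) [∀ n, DecidableRel (G n).Adj]
      (_ : ∀ n, (G n).Connected)
      (_ : ∀ n v w, ((G n).degree v : ℝ) ≤ Δ * (G n).degree w)
      (μ : ∀ n, (V n → Fin q) → ℝ) (_ : ∀ n, IsStationary (G n) q θ (μ n))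
      (x₀ : ∀ n, V n → Fin q),
      ∃ T : ℕ → ℝ, ∀ ε : ℝ, 0 < ε → ε < 1 →
        Tendsto (fun n => mixingTime (G n) q θ (μ n) (x₀ n) ε / T n) atTop (𝓝 1) ∧
        ∀ n, 3 ≤ Fintype.card (V n) → |mixingTime (G n) q θ (μ n) (x₀ n) ε - T n| ≤
          1 / θ * Real.log (Real.log (Fintype.card (V n))) + C ε := by
  refine ⟨fun ε => 2 + |1 / θ * Real.log (Kc q θ Δ / (ε * (1 - ε) / 2) ^ 2)|, ?_⟩
  intro V _ _ hV2 hlim G _ hconn hdeg μ hμ x₀
  have : NeZero q := ⟨by omega⟩
  have : ∀ n, Nonempty (V n) := fun n => (hconn n).nonempty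
  have hmin : ∀ n, ∃ w, (G n).degree w = (G n).minDegree := fun n => by
    obtain ⟨w, hw⟩ := (G n).exists_minimal_degree_vertex
    exact ⟨w, hw.symm⟩
  have hm : ∀ n, (0 : ℝ) < (G n).minDegree := fun n => by
    obtain ⟨w, hw⟩ := hmin n
    have := one_le_degree (G n) (hconn n) (hV2 n) w
    rw [← hw]
    exact_mod_cast this
  have h1 : ∀ n v, ((G n).minDegree : ℝ) ≤ (G n).degree v := fun n v => by
    exact_mod_cast (G n).minDegree_le_degree v
  have h2 : ∀ n v, ((G n).degree v : ℝ) ≤ Δ * (G n).minDegree := fun n v => by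
    obtain ⟨w, hw⟩ := hmin n
    rw [← hw]
    exact hdeg n v w
  have hΔ : 1 ≤ Δ := one_le_ratio (G 0) (hconn 0) (hV2 0) (hdeg 0)
  refine ⟨fun n => mixingTime (G n) q θ (μ n) (x₀ n) (1 / 2), fun ε hε hε1 => ⟨?_, fun n hV => ?_⟩⟩
  · have := cutoff_main hq hθ0 hθ1.le hΔ (fun n => graphKern (G n) hθ1.le (hm n) (h1 n) (h2 n))
      hlim μ (fun n => isStat_of (G n) hθ1.le (hm n) (h1 n) (h2 n) (hμ n)) x₀ hε hε1
    refine this.congr fun n => ?_
    simp only [mixingTime_eq (G n) hθ1.le (hm n) (h1 n) (h2 n)]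
  · have hst := isStat_of (G n) hθ1.le (hm n) (h1 n) (h2 n) (hμ n)
    have e1 : 0 < 1 - ε := by linarith
    have hmm : 0 < (ε * (1 - ε) / 2) ^ 2 := by positivity
    have a1 : (ε * (1 - ε) / 2) ^ 2 ≤ (1 / 2 * (1 - ε)) ^ 2 := by
      refine pow_le_pow_left₀ (by positivity) ?_ 2
      nlinarith
    have a2 : (ε * (1 - ε) / 2) ^ 2 ≤ (ε * (1 - 1 / 2)) ^ 2 := by
      refine pow_le_pow_left₀ (by positivity) ?_ 2
      nlinarith
    have b1 := window_step (graphKern (G n) hθ1.le (hm n) (h1 n) (h2 n)) hθ0 hθ1.le hΔ hst (x₀ n)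
      hε hε1 (by norm_num : (0 : ℝ) < 1 / 2) hmm a1 hV
    have b2 := window_step (graphKern (G n) hθ1.le (hm n) (h1 n) (h2 n)) hθ0 hθ1.le hΔ hst (x₀ n)
      (by norm_num : (0 : ℝ) < 1 / 2) (by norm_num) hε hmm a2 hV
    simp only [mixingTime_eq (G n) hθ1.le (hm n) (h1 n) (h2 n)]
    rw [abs_le]
    constructor <;> linarith

end Pool.Agent.Results.MP_1c1c61_pr.CutoffWindow
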